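import Pool.Agent.H83.MW.Run
import Pool.Agent.H88.MW.Cover
import Pool.Agent.H2.MW.LemmaU
import Pool.Agent.H40.MW.FSync
import Pool.Agent.H40.MW.OmCount
import Pool.Agent.H87.MW.App

/-! # MP_1fe246_co, module PU7, part 1: cuts and old gaps, finite ages, covers -/

set_option autoImplicit false
set_option linter.unusedSectionVars false

namespace Pool.Agent.H19.MW

open Pool.Agent.H68.MW Pool.Agent.H83.MW Pool.Agent.H88.MW

/-- module P4 (TWO AGES) -/
def TwoAges {B : Type} (τ : B → List B) (v : ℤ → B) (c : ℤ → ℤ) : Prop :=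
  ∀ K : ℕ, ∃ (ι : Type) (_ : Finite ι) (Ω : ι → ℤ → B) (C : ℕ),
    ∀ (x y : ℤ) (r L a : ℕ) (i j : ℤ), win v x r = win v y r → InBlk c L x r →
      (∀ i' j' : ℤ, Gap τ v i' j' → i' ≤ y + r + K → y ≤ j' + K → ∃ n, ¬ Old τ v c n i' j') →
      Old τ v c a i j → y - K ≤ j → i ≤ y + r + K → L + C ≤ a → C * (r + 1) ≤ a ^ 2 →
      ∃ (q : ι) (α : ℤ), win v y r = win (Ω q) α r ∧ -((r : ℤ) + C) ≤ α ∧ α ≤ r + C

variable {B : Type} [Fintype B] {τ : B → List B} {v : ℤ → B} {c : ℤ → ℤ}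

section
variable (hN : Nrm τ) (h : Img τ v v c)
include hN h

theorem iter_RR {i : ℤ} (hi : Gr τ (v i)) (k : ℕ) :
    (c^[k]) i ≤ (RR τ v c)^[k] i ∧ (RR τ v c)^[k] i < (c^[k]) (i + 1) ∧
      Gr τ (v ((RR τ v c)^[k] i)) := by
  induction k with
  | zero => exact ⟨le_refl _, by simp, hi⟩
  | succ k ih =>
    obtain ⟨h1, h2, h3⟩ := ih
    have h4 := c_lt_RR hN h h3
    rw [Function.iterate_succ_apply', Function.iterate_succ_apply', Function.iterate_succ_apply']
    refine ⟨le_trans (h.strictMono.monotone h1) h4.1, ?_, ?_⟩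
    · exact lt_of_lt_of_le h4.2 (h.strictMono.monotone (by omega))
    · rw [v_RR hN h h3]; exact gr_rf hN h3

theorem iter_LL {i : ℤ} (hi : Gr τ (v i)) (k : ℕ) :
    (c^[k]) i ≤ (LL τ v c)^[k] i ∧ (LL τ v c)^[k] i < (c^[k]) (i + 1) ∧
      Gr τ (v ((LL τ v c)^[k] i)) := by
  induction k with
  | zero => exact ⟨le_refl _, by simp, hi⟩
  | succ k ih =>
    obtain ⟨h1, h2, h3⟩ := ih
    have h4 := c_lt_LL hN h h3
    rw [Function.iterate_succ_apply', Function.iterate_succ_apply', Function.iterate_succ_apply']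
    refine ⟨le_trans (h.strictMono.monotone h1) h4.1, ?_, ?_⟩
    · exact lt_of_lt_of_le h4.2 (h.strictMono.monotone (by omega))
    · rw [v_LL hN h h3]; exact gr_lf hN h3

/-- the gap around a cut -/
theorem gap_around (hl : ∀ x : ℤ, ∃ y, y < x ∧ Gr τ (v y)) (hr : ∀ x : ℤ, ∃ y, x < y ∧ Gr τ (v y))
    (M : ℤ) : ∃ i j, Gap τ v i j ∧ i < M ∧ M ≤ j := by
  classical
  have h1 : ∃ k : ℕ, Gr τ (v (M - 1 - k)) := by
    obtain ⟨y, hy, hg⟩ := hl M
    refine ⟨(M - 1 - y).toNat, ?_⟩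
    have e : M - 1 - ((M - 1 - y).toNat : ℤ) = y := by omega
    rw [e]; exact hg
  have h2 : ∃ k : ℕ, Gr τ (v (M + k)) := by
    obtain ⟨y, hy, hg⟩ := hr M
    refine ⟨(y - M).toNat, ?_⟩
    have e : M + ((y - M).toNat : ℤ) = y := by omega
    rw [e]; exact hg
  obtain ⟨k1, hk1, hk1'⟩ : ∃ k : ℕ, Gr τ (v (M - 1 - k)) ∧ ∀ k' < k, ¬ Gr τ (v (M - 1 - k')) :=
    ⟨Nat.find h1, Nat.find_spec h1, fun k' hk' => Nat.find_min h1 hk'⟩
  obtain ⟨k2, hk2, hk2'⟩ : ∃ k : ℕ, Gr τ (v (M + k)) ∧ ∀ k' < k, ¬ Gr τ (v (M + k')) :=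
    ⟨Nat.find h2, Nat.find_spec h2, fun k' hk' => Nat.find_min h2 hk'⟩
  refine ⟨M - 1 - k1, M + k2, ⟨by omega, hk1, hk2, fun z hz1 hz2 => ?_⟩, by omega, by omega⟩
  by_cases hz : z < M
  · have := hk1' (M - 1 - z).toNat (by omega)
    have e : M - 1 - ((M - 1 - z).toNat : ℤ) = z := by omega
    rwa [e] at this
  · have := hk2' (z - M).toNat (by omega)
    have e : M + ((z - M).toNat : ℤ) = z := by omega
    rwa [e] at this

/-- the old gap around a cut of level `k` -/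
theorem old_cut (hl : ∀ x : ℤ, ∃ y, y < x ∧ Gr τ (v y)) (hr : ∀ x : ℤ, ∃ y, x < y ∧ Gr τ (v y))
    (k : ℕ) (M : ℤ) : ∃ i j, Old τ v c k i j ∧ i < (c^[k]) M ∧ (c^[k]) M ≤ j := by
  obtain ⟨i, j, g, hi, hj⟩ := gap_around hN h hl hr M
  refine ⟨_, _, ⟨i, j, g, rfl, rfl⟩, ?_, ?_⟩
  · exact lt_of_lt_of_le (iter_RR hN h g.gl k).2.1
      ((h.power k).strictMono.monotone (by omega))
  · exact le_trans ((h.power k).strictMono.monotone hj) (iter_LL hN h g.gr k).1

theorem RR_inj {i i' : ℤ} (hi : Gr τ (v i)) (hi' : Gr τ (v i')) (he : RR τ v c i = RR τ v c i') :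
    i = i' := by
  have h1 := c_lt_RR hN h hi
  have h2 := c_lt_RR hN h hi'
  exact h.block_unique h1.1 h1.2 (by rw [he]; exact h2.1) (by rw [he]; exact h2.2)

theorem LL_inj {i i' : ℤ} (hi : Gr τ (v i)) (hi' : Gr τ (v i')) (he : LL τ v c i = LL τ v c i') :
    i = i' := by
  have h1 := c_lt_LL hN h hi
  have h2 := c_lt_LL hN h hi'
  exact h.block_unique h1.1 h1.2 (by rw [he]; exact h2.1) (by rw [he]; exact h2.2)

/-- a gap of exact age `a` is not of age `≥ a + 1` -/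
theorem not_old_of_ageT {a : ℕ} {y : B} {t t' : ℕ} : ∀ {i j : ℤ}, AgeT τ v c a y t t' i j →
    ¬ Old τ v c (a + 1) i j := by
  induction a with
  | zero =>
    intro i j hA hO
    obtain ⟨m, hm, h1, h2, g, hi, hj⟩ := hA
    simp only [Function.iterate_zero, id_eq] at hi hj
    obtain ⟨i', j', hO', hi', hj'⟩ := hO.pred hN h
    have g' := hO'.gap hN h
    have h3 := c_lt_RR hN h g'.gl
    have h4 := c_lt_LL hN h g'.gr
    have h5 := h.step m
    rw [hm] at h5
    have e1 : m = i' := h.block_unique (z := i) (by omega) (by omega) (by omega) (by omega)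
    have e2 : m = j' := h.block_unique (z := j) (by omega) (by omega) (by omega) (by omega)
    have := g'.lt
    omega
  | succ a ih =>
    intro i j hA hO
    obtain ⟨i₁, j₁, hA₁, hi₁, hj₁⟩ := hA.pred hN h
    obtain ⟨i₂, j₂, hO₂, hi₂, hj₂⟩ := hO.pred hN h
    have g1 := hA₁.gap hN h
    have g2 := hO₂.gap hN h
    have e1 : i₁ = i₂ := RR_inj hN h g1.gl g2.gl (by rw [← hi₁, ← hi₂])
    have e2 : j₁ = j₂ := LL_inj hN h g1.gr g2.gr (by rw [← hj₁, ← hj₂])
    subst e1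
    subst e2
    exact ih hA₁ hO₂

/-- gaps to the right of the growing letter at position `0` have finite age -/
theorem finite_age (hc0 : c 0 = 0) (hg0 : Gr τ (v 0)) {i j : ℤ} (g : Gap τ v i j) (hj : 0 < j) :
    ∃ n, ¬ Old τ v c n i j := by
  have hi : 0 ≤ i := by
    by_contra hcon
    exact g.bd 0 (by omega) hj hg0
  obtain ⟨L, hL, -⟩ := exists_lev hN h hc0 hg0 hi (j + 1 - i).toNat
  obtain ⟨m, hm1, hm2⟩ := hL
  have := g.lt
  obtain ⟨a, -, y, t, t', hA⟩ := gap_ageT hN h g hm1 (by omega)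
  exact ⟨a + 1, not_old_of_ageT hN h hA⟩

end

theorem sfx_suffix {N M : ℕ} (hNM : N ≤ M) (w : List B) : sfx N w <:+ sfx M w := by
  unfold sfx
  refine ⟨(w.drop (w.length - M)).take ((w.length - N) - (w.length - M)), ?_⟩
  have e : w.drop (w.length - N) = (w.drop (w.length - M)).drop ((w.length - N) - (w.length - M)) := by
    rw [List.drop_drop]
    congr 1
    omega
  rw [e]
  exact List.take_append_drop _ _

/-- a smaller neighbourhood of a cut is an infix of the larger one -/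
theorem XX_infix {N M : ℕ} (hNM : N ≤ M) (k : ℕ) (y : B) (t : ℕ) :
    XX τ k N y t <:+: XX τ k M y t := by
  unfold XX
  obtain ⟨s, hs⟩ := sfx_suffix hNM (((τ y).take t).flatMap (itr τ k))
  have hp : (((τ y).drop t).flatMap (itr τ k)).take N <+:
      (((τ y).drop t).flatMap (itr τ k)).take M := List.take_prefix_take_left hNM
  obtain ⟨p, hp⟩ := hp
  refine ⟨s, p, ?_⟩
  rw [← hs, ← hp]
  simp [List.append_assoc]

theorem XX_length (k N : ℕ) (y : B) (t : ℕ) : (XX τ k N y t).length ≤ 2 * N := by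
  unfold XX
  rw [List.length_append, length_sfx, List.length_take]
  omega

end Pool.Agent.H19.MW
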