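import Pool.Agent.H19.MW.PushUp1

/-! # MP_1fe246_co, module PU7, part 2: windows, near pairs and far pairs of levels -/

set_option autoImplicit false
set_option linter.unusedSectionVars false

namespace Pool.Agent.H19.MW

open Pool.Agent.H68.MW Pool.Agent.H83.MW Pool.Agent.H88.MW

theorem infix_flatMap {B A : Type} (f : B → List A) {w X : List B} (h : w <:+: X) :
    w.flatMap f <:+: X.flatMap f := by
  obtain ⟨s, p, rfl⟩ := h
  exact ⟨s.flatMap f, p.flatMap f, by simp⟩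

variable {A B : Type} [Fintype B] {τ : B → List B} {f : B → List A} {v : ℤ → B} {U : ℤ → A}
  {c c₀ : ℤ → ℤ}

/-- the window of `v` under a window of `U` -/
def Under (c₀ : ℤ → ℤ) (e : ℤ) (n : ℕ) (a : ℤ) (N : ℕ) : Prop :=
  c₀ a ≤ e - n ∧ e - n < c₀ (a + 1) ∧ c₀ (a + N - 1) ≤ e ∧ e < c₀ (a + N)

theorem exists_under (h₀ : Img f v U c₀) (e : ℤ) (n : ℕ) (hn : tl f ≤ n) :
    ∃ (a : ℤ) (N : ℕ), Under c₀ e n a N ∧ N ≤ n + 1 ∧ 2 ≤ N := by
  obtain ⟨a, ha1, ha2⟩ := h₀.exists_block (e - n)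
  obtain ⟨b, hb1, hb2⟩ := h₀.exists_block e
  have h1 := h₀.step_le a
  have hab : a + 1 ≤ b := by
    by_contra hcon
    have := h₀.strictMono.monotone (show b + 1 ≤ a + 1 by omega)
    omega
  have h2 := h₀.add_le (a + 1) (b - (a + 1)).toNat
  have e1 : a + 1 + ((b - (a + 1)).toNat : ℤ) = b := by omega
  rw [e1] at h2
  refine ⟨a, (b + 1 - a).toNat, ⟨ha1, ha2, ?_, ?_⟩, by omega, by omega⟩
  · have e2 : a + ((b + 1 - a).toNat : ℤ) - 1 = b := by omega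
    rw [e2]; exact hb1
  · have e2 : a + ((b + 1 - a).toNat : ℤ) = b + 1 := by omega
    rw [e2]; exact hb2

/-- the word with its next letter is covered by the image of the neighbourhood of a cut -/
theorem under_cover (h : Img τ v v c) (h₀ : Img f v U c₀) {e a : ℤ} {n N M L : ℕ}
    (hU : Under c₀ e n a N) (hN2 : 2 ≤ N) (hNM : N ≤ M) (hL : Lev c a N L) :
    ∃ (k : ℕ) (y : B) (t : ℕ), L = k + 1 ∧ t < (τ y).length ∧
      (win U (e - n) n ++ [U e]) <:+: (XX τ k M y t).flatMap f := by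
  obtain ⟨k, y, t, hk, -, ht, hinf⟩ := cover h hN2 hL
  refine ⟨k, y, t, hk, ht, ?_⟩
  have h1 : win U (e - n) n ++ [U e] = win U (e - n) (n + 1) := by
    rw [win_add]
    simp [win]
  obtain ⟨u1, u2, u3, u4⟩ := hU
  have h2 : win U (e - n) (n + 1) <:+: (win v a N).flatMap f := by
    rw [h₀.win_image]
    apply win_infix
    · exact u1
    · push_cast
      omega
  rw [h1]
  exact h2.trans (infix_flatMap f (hinf.trans (XX_infix hNM k y t)))

/-- a window above lies in the window under -/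
theorem under_sub (h₀ : Img f v U c₀) {e a x : ℤ} {n N r : ℕ} (hU : Under c₀ e n a N)
    (hx : e - n ≤ c₀ x) (hxr : c₀ (x + r) ≤ e) : a ≤ x ∧ x + r < a + N := by
  obtain ⟨u1, u2, u3, u4⟩ := hU
  exact ⟨h₀.strictMono.le_iff_le.1 (by omega), h₀.strictMono.lt_iff_lt.1 (by omega)⟩

/-- **the far case**: the second window has a much larger level, which is large with respect to the
length -/
theorem far_case (hN : Nrm τ) (h : Img τ v v c) (h₀ : Img f v U c₀)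
    (hl : ∀ x : ℤ, ∃ y, y < x ∧ Gr τ (v y)) (hr : ∀ x : ℤ, ∃ y, x < y ∧ Gr τ (v y))
    (hc0 : c 0 = 0) (hg0 : Gr τ (v 0)) (hc00 : c₀ 0 = 0) {Kf C₁ : ℕ} {ι : Type}
    {Ω : ι → ℤ → B}
    (hTA : ∀ (x y : ℤ) (r L a : ℕ) (i j : ℤ), win v x r = win v y r → InBlk c L x r →
      (∀ i' j' : ℤ, Gap τ v i' j' → i' ≤ y + r + (Kf + 2 : ℕ) → y ≤ j' + (Kf + 2 : ℕ) →
        ∃ n, ¬ Old τ v c n i' j') →
      Old τ v c a i j → y - (Kf + 2 : ℕ) ≤ j → i ≤ y + r + (Kf + 2 : ℕ) → L + C₁ ≤ a →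
      C₁ * (r + 1) ≤ a ^ 2 →
      ∃ (q : ι) (α : ℤ), win v y r = win (Ω q) α r ∧ -((r : ℤ) + C₁) ≤ α ∧ α ≤ r + C₁)
    {e e' a a' x x' : ℤ} {n N N' k k' r : ℕ}
    (hU : Under c₀ e n a N) (hU' : Under c₀ e' n a' N') (hNn : N ≤ n + 1)
    (hL : Lev c a N (k + 1)) (hL' : Lev c a' N' (k' + 1))
    (hfar : k + 1 + C₁ ≤ k') (hbig : C₁ * (n + 2) ≤ k' ^ 2)
    (hpos : (Kf + 2) * tl f < e' - n)
    (hwin : win v x r = win v x' r) (hx1 : e - n ≤ c₀ x) (hx2 : c₀ (x + r) ≤ e)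
    (hx1' : e' - n ≤ c₀ x') (hx2' : c₀ x' ≤ e' - n + Kf) (hx3' : e' - Kf ≤ c₀ (x' + r))
    (hx4' : c₀ (x' + r) ≤ e') :
    ∃ (q : ι) (α : ℤ) (s p : List A), win U (e' - n) n = s ++ (win (Ω q) α r).flatMap f ++ p ∧
      s.length ≤ Kf ∧ p.length ≤ Kf ∧ -((r : ℤ) + C₁) ≤ α ∧ α ≤ r + C₁ := by
  obtain ⟨s1, s2⟩ := under_sub h₀ hU hx1 hx2
  obtain ⟨s1', s2'⟩ := under_sub h₀ hU' hx1' hx4'
  -- position of the second window
  have hx'pos : ((Kf + 2 : ℕ) : ℤ) < x' := by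
    have h1 := h₀.add_le' 0 (Kf + 2)
    rw [zero_add, hc00, zero_add] at h1
    apply h₀.strictMono.lt_iff_lt.1
    push_cast at h1 ⊢
    omega
  -- the cut
  obtain ⟨m, hm1, hm2⟩ := (h.power k').exists_block a'
  have hcut : (c^[k']) (m + 1) < a' + N' := by
    by_contra hcon
    exact hL'.2 k' (by omega) ⟨m, hm1, by omega⟩
  obtain ⟨i, j, hO, hi, hj⟩ := old_cut hN h hl hr k' (m + 1)
  have hxa : x' < a' + 1 + Kf := by
    apply h₀.strictMono.lt_iff_lt.1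
    have h1 := h₀.add_le (a' + 1) Kf
    have := hU'.2.1
    omega
  have hxb : a' + N' - 1 ≤ x' + r + Kf := by
    apply h₀.strictMono.le_iff_le.1
    have h1 := h₀.add_le (x' + r) Kf
    have := hU'.2.2.1
    omega
  obtain ⟨q, α, hq, hα1, hα2⟩ := hTA x x' r (k + 1) k' i j hwin
    (by
      obtain ⟨m, hm1, hm2⟩ := hL.1
      exact ⟨m, by omega, by omega⟩)
    (fun i' j' g _ hj' => finite_age hN h hc0 hg0 g (by omega))
    hO (by push_cast; omega) (by push_cast; omega) hfar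
    (le_trans (Nat.mul_le_mul_left _ (by omega)) hbig)
  refine ⟨q, α, win U (e' - n) (c₀ x' - (e' - n)).toNat, win U (c₀ (x' + r)) (e' - c₀ (x' + r)).toNat,
    ?_, ?_, ?_, hα1, hα2⟩
  · rw [← hq, h₀.win_image]
    have h1 := h₀.add_le x' r
    have e1 : n = (c₀ x' - (e' - n)).toNat + (c₀ (x' + r) - c₀ x').toNat
        + (e' - c₀ (x' + r)).toNat := by omega
    conv_lhs => rw [e1]
    rw [win_add, win_add]
    have e2 : e' - (((c₀ x' - (e' - n)).toNat + (c₀ (x' + r) - c₀ x').toNat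
        + (e' - c₀ (x' + r)).toNat : ℕ) : ℤ) = e' - n := by rw [← e1]
    rw [e2]
    have e3 : e' - (n : ℤ) + ((c₀ x' - (e' - n)).toNat : ℤ) = c₀ x' := by omega
    have e4 : e' - (n : ℤ) + (((c₀ x' - (e' - n)).toNat + (c₀ (x' + r) - c₀ x').toNat : ℕ) : ℤ)
        = c₀ (x' + r) := by push_cast; omega
    rw [e3, e4]
  · rw [length_win]; omega
  · rw [length_win]; omega

end Pool.Agent.H19.MW
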