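import Pool.Agent.H19.MW.PushUp2

/-! # MP_1fe246_co, module PU7, part 3: the upper bound `r(n) ≤ C (n + 1)` in the pushy case -/

set_option autoImplicit false
set_option linter.unusedSectionVars false

namespace Pool.Agent.H19.MW

open Pool.Agent.H68.MW Pool.Agent.H83.MW Pool.Agent.H88.MW Pool.Agent.H40.MW

theorem ncard_biUnion_le' {ι A : Type} (I : Finset ι) (S : ι → Set A) (C : ℕ)
    (hC : ∀ i, (S i).ncard ≤ C) : (⋃ i ∈ I, S i).ncard ≤ I.card * C := by
  classical
  refine (I.set_ncard_biUnion_le S).trans ?_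
  calc ∑ i ∈ I, (S i).ncard ≤ ∑ _i ∈ I, C := Finset.sum_le_sum fun i _ => hC i
    _ = I.card * C := by simp

variable {A B : Type} [Fintype A] [Fintype B] {τ : B → List B} {f : B → List A} {v : ℤ → B}
  {U : ℤ → A} {c c₀ : ℤ → ℤ}

theorem ncard_length_eq (n : ℕ) : {w : List A | w.length = n}.ncard = Fintype.card A ^ n := by
  rw [← Nat.card_coe_set_eq]
  have : Nat.card (List.Vector A n) = Fintype.card A ^ n := by
    rw [Nat.card_eq_fintype_card, card_vector]
  exact this

/-- the pairs of levels treated by Lemma U -/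
def nearPairs (C₁ n : ℕ) : Finset (ℕ × ℕ) :=
  ((Finset.range (n + 3) ×ˢ Finset.range (2 * C₁ + 1)).image fun d => (d.1, d.1 + d.2 - C₁)) ∪
    (Finset.range (Nat.sqrt (C₁ * (n + 2)) + 1) ×ˢ Finset.range (Nat.sqrt (C₁ * (n + 2)) + 1))

theorem card_nearPairs (C₁ n : ℕ) : (nearPairs C₁ n).card ≤ (10 * C₁ + 5) * (n + 1) := by
  unfold nearPairs
  refine (Finset.card_union_le _ _).trans ?_
  have h1 : ((Finset.range (n + 3) ×ˢ Finset.range (2 * C₁ + 1)).image
      fun d : ℕ × ℕ => (d.1, d.1 + d.2 - C₁)).card ≤ (n + 3) * (2 * C₁ + 1) := by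
    refine Finset.card_image_le.trans ?_
    simp
  have h2 : (Finset.range (Nat.sqrt (C₁ * (n + 2)) + 1) ×ˢ
      Finset.range (Nat.sqrt (C₁ * (n + 2)) + 1)).card ≤ 2 * (C₁ * (n + 2)) + 2 := by
    rw [Finset.card_product, Finset.card_range]
    have h3 := Nat.sqrt_le' (C₁ * (n + 2))
    set s := Nat.sqrt (C₁ * (n + 2))
    nlinarith
  have h4 : (n + 3) * (2 * C₁ + 1) + (2 * (C₁ * (n + 2)) + 2) ≤ (10 * C₁ + 5) * (n + 1) := by
    nlinarith
  omega

theorem mem_nearPairs {C₁ n κ κ' : ℕ} (h1 : κ ≤ n + 2)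
    (h : (κ' ≤ κ + C₁ ∧ κ ≤ κ' + C₁) ∨ (κ ^ 2 < C₁ * (n + 2) ∧ κ' ^ 2 < C₁ * (n + 2))) :
    (κ, κ') ∈ nearPairs C₁ n := by
  unfold nearPairs
  rw [Finset.mem_union]
  rcases h with ⟨h2, h3⟩ | ⟨h2, h3⟩
  · left
    rw [Finset.mem_image]
    refine ⟨(κ, κ' + C₁ - κ), ?_, ?_⟩
    · simp only [Finset.mem_product, Finset.mem_range]
      omega
    · simp only [Prod.mk.injEq, true_and]
      omega
  · right
    simp only [Finset.mem_product, Finset.mem_range]
    rw [Nat.lt_succ_iff, Nat.lt_succ_iff, Nat.le_sqrt', Nat.le_sqrt']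
    exact ⟨h2.le, h3.le⟩

/-- **PU7.** The upper bound in the pushy case. -/
theorem push_upper (hN : Nrm τ) (h : Img τ v v c) (hf : Irred f) (h₀ : Img f v U c₀)
    (hl : ∀ x : ℤ, ∃ y, y < x ∧ Gr τ (v y)) (hr : ∀ x : ℤ, ∃ y, x < y ∧ Gr τ (v y))
    (hc0 : c 0 = 0) (hg0 : Gr τ (v 0)) (hc00 : c₀ 0 = 0) (hTA : TwoAges τ v c)
    (hneg : ∃ b : A, ∀ (n : ℕ) (e e' : ℤ), win U (e - n) n = win U (e' - n) n → U e ≠ U e' →
      e - n < 0 → win U (e - n) n = List.replicate n b) :
    ∃ C : ℕ, ∀ n : ℕ, rs U n ≤ C * (n + 1) := by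
  classical
  obtain ⟨Kf, P, hsync⟩ := fsync hf
  obtain ⟨ι, hι, Ω, C₁, hTA⟩ := hTA (Kf + 2)
  obtain ⟨CU, hCU⟩ := H2.MW.lemmaU (A := A) (4 * tl f)
  obtain ⟨C0, hC0⟩ := app_words (B := A) Kf P
  obtain ⟨C3, hC3⟩ := omega_count Ω h₀.ne (max Kf C₁)
  obtain ⟨b, hneg⟩ := hneg
  set Z0 := (Kf + 2) * tl f with hZ0
  have htlf : 0 < tl f := tl_pos h₀.ne (v 0)
  set D := Fintype.card (B × Fin (tl τ)) with hD
  refine ⟨(Fintype.card A + 1) ^ tl f + C0 + 1 + (Z0 + 1) + C3
    + (10 * C₁ + 5) * (D * D) * CU, fun n => ?_⟩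
  have hlen : RS U n ⊆ {w : List A | w.length = n} := by
    rintro w ⟨e, e', h1, -, -⟩
    rw [h1]; simp
  have hfinlen : {w : List A | w.length = n}.Finite := List.finite_length_eq A n
  by_cases hn : n < tl f
  · -- short words
    have h1 : rs U n ≤ Fintype.card A ^ n := by
      rw [← ncard_length_eq]
      exact Set.ncard_le_ncard hlen hfinlen
    have h2 : Fintype.card A ^ n ≤ (Fintype.card A + 1) ^ tl f :=
      (Nat.pow_le_pow_left (Nat.le_succ _) n).trans (Nat.pow_le_pow_right (by omega) hn.le)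
    calc rs U n ≤ (Fintype.card A + 1) ^ tl f := h1.trans h2
      _ ≤ ((Fintype.card A + 1) ^ tl f + C0 + 1 + (Z0 + 1) + C3
          + (10 * C₁ + 5) * (D * D) * CU) * 1 := by omega
      _ ≤ _ := Nat.mul_le_mul_left _ (by omega)
  push Not at hn
  -- the five families
  let S1 : Set (List A) := {w | w.length = n ∧ App Kf P w}
  let S2 : Set (List A) := {List.replicate n b}
  let S3 : Set (List A) := (fun z : ℤ => win U z n) '' (Set.Icc 0 (Z0 : ℤ))
  let S4 : Set (List A) := {w : List A | w.length = n ∧ ∃ (q : ι) (α : ℤ) (r : ℕ) (s p : List A),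
      w = s ++ (win (Ω q) α r).flatMap f ++ p ∧ s.length ≤ max Kf C₁ ∧ p.length ≤ max Kf C₁ ∧
      -((r : ℤ) + (max Kf C₁ : ℕ)) ≤ α ∧ α ≤ r + (max Kf C₁ : ℕ)}
  let I : Finset ((ℕ × ℕ) × ((B × Fin (tl τ)) × (B × Fin (tl τ)))) :=
    nearPairs C₁ n ×ˢ (Finset.univ ×ˢ Finset.univ)
  let F : ℕ → B × Fin (tl τ) → List A := fun κ d => (XX τ κ (n + 1) d.1 d.2).flatMap f
  let S5 : Set (List A) := ⋃ d ∈ I, H2.MW.PairSet n (F d.1.1 d.2.1) (F d.1.2 d.2.2)
  have hFlen : ∀ κ d, (F κ d).length ≤ 4 * tl f * n := by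
    intro κ d
    have h1 := XX_length (τ := τ) κ (n + 1) d.1 d.2
    have h2 : ∀ l : List B, (l.flatMap f).length ≤ l.length * tl f := by
      intro l
      induction l with
      | nil => simp
      | cons a l ih =>
        have := length_le_tl f a
        simp only [List.flatMap_cons, List.length_append, List.length_cons]
        nlinarith
    refine (h2 _).trans ?_
    have h3 : (XX τ κ (n + 1) d.1 d.2).length ≤ 4 * n := by omega
    calc _ ≤ 4 * n * tl f := Nat.mul_le_mul_right _ h3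
      _ = _ := by ring
  have hPS : ∀ d : (ℕ × ℕ) × ((B × Fin (tl τ)) × (B × Fin (tl τ))),
      (H2.MW.PairSet n (F d.1.1 d.2.1) (F d.1.2 d.2.2)).ncard ≤ CU :=
    fun d => (hCU n _ _ (hFlen _ _) (hFlen _ _)).2
  have h1c : S1.ncard ≤ C0 := (hC0 n).2
  have h2c : S2.ncard ≤ 1 := by rw [Set.ncard_singleton]
  have h3c : S3.ncard ≤ Z0 + 1 := by
    refine (Set.ncard_image_le (Set.finite_Icc _ _)).trans ?_
    rw [← Finset.coe_Icc, Set.ncard_coe_finset, Int.card_Icc]
    omega
  have h4c : S4.ncard ≤ C3 * (n + 1) := hC3 n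
  have h5c : S5.ncard ≤ (10 * C₁ + 5) * (n + 1) * (D * D) * CU := by
    refine (ncard_biUnion_le' I _ CU hPS).trans ?_
    apply Nat.mul_le_mul_right
    simp only [I, Finset.card_product, Finset.card_univ]
    exact Nat.mul_le_mul_right _ (card_nearPairs C₁ n)
  -- covering
  have hcov : RS U n ⊆ S1 ∪ (S2 ∪ (S3 ∪ (S4 ∪ S5))) := by
    rintro w ⟨e, e', hw, hw', hee⟩
    have hwlen : w.length = n := by rw [hw]; simp
    by_cases hn1 : e - n < 0
    · right; left
      have := hneg n e e' (by rw [← hw, ← hw']) hee hn1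
      show w = _
      rw [hw, this]
    by_cases hn2 : e' - n < 0
    · right; left
      have := hneg n e' e (by rw [← hw, ← hw']) hee.symm hn2
      show w = _
      rw [hw', this]
    by_cases hz1 : e - n ≤ Z0
    · right; right; left
      exact ⟨e - n, ⟨by omega, hz1⟩, hw.symm⟩
    by_cases hz2 : e' - n ≤ Z0
    · right; right; left
      exact ⟨e' - n, ⟨by omega, hz2⟩, hw'.symm⟩
    push Not at hn1 hn2 hz1 hz2
    have hcom : ∀ i : ℕ, i < n → U (e - n + i) = U (e' - n + i) :=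
      (win_eq_iff _ _ _ _ _).1 (by rw [← hw, ← hw'])
    rcases hsync v U c₀ h₀ e e' n hcom with happ | ⟨x, x', r, hxx, hx1, hx2, hx3, hx4, hx5⟩
    · left
      exact ⟨hwlen, by rw [hw]; exact happ⟩
    -- the positions in the second window
    have hcut := h₀.cut_eq (a := x) (b := x') (k := r) ((win_eq_iff _ _ _ _ _).1 hxx)
    have hx1' : e' - n ≤ c₀ x' := by omega
    have hx2' : c₀ x' ≤ e' - n + Kf := by omega
    have hx3' : e' - Kf ≤ c₀ (x' + r) := by omega
    have hx4' : c₀ (x' + r) ≤ e' := by omega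
    -- the windows below and their levels
    obtain ⟨a, N, hU, hNn, hN2⟩ := exists_under h₀ e n hn
    obtain ⟨a', N', hU', hNn', hN2'⟩ := exists_under h₀ e' n hn
    have hapos : ∀ {e a : ℤ} {N : ℕ}, Under c₀ e n a N → 0 ≤ e - n → 0 ≤ a := by
      intro e a N hU he
      have : (0 : ℤ) < a + 1 := by
        apply h₀.strictMono.lt_iff_lt.1
        rw [hc00]
        exact lt_of_le_of_lt he hU.2.1
      omega
    obtain ⟨L, hL⟩ := exists_lev hN h hc0 hg0 (hapos hU hn1) N
    obtain ⟨L', hL'⟩ := exists_lev hN h hc0 hg0 (hapos hU' hn2) N'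
    obtain ⟨k, y, t, hk, ht, hinf⟩ := under_cover h h₀ hU hN2 hNn hL
    obtain ⟨k', y', t', hk', ht', hinf'⟩ := under_cover h h₀ hU' hN2' hNn' hL'
    subst hk
    subst hk'
    set κ := min k (n + 2) with hκ
    set κ' := min k' (n + 2) with hκ'
    have hXX : ∀ (k : ℕ) (y : B) (t : ℕ), XX τ k (n + 1) y t = XX τ (min k (n + 2)) (n + 1) y t := by
      intro k y t
      by_cases hk : k ≤ n + 2
      · rw [min_eq_left hk]
      · rw [min_eq_right (by omega)]
        exact stable hN (by omega) y t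
    by_cases hnear : (κ' ≤ κ + C₁ ∧ κ ≤ κ' + C₁) ∨
        (κ ^ 2 < C₁ * (n + 2) ∧ κ' ^ 2 < C₁ * (n + 2))
    · -- Lemma U
      right; right; right; right
      have htl : t < tl τ := lt_of_lt_of_le ht (length_le_tl τ y)
      have htl' : t' < tl τ := lt_of_lt_of_le ht' (length_le_tl τ y')
      simp only [S5, Set.mem_iUnion]
      refine ⟨((κ, κ'), ((y, ⟨t, htl⟩), (y', ⟨t', htl'⟩))), ?_, hwlen, U e, U e', hee, ?_, ?_⟩
      · simp only [I, Finset.mem_product, Finset.mem_univ, and_true]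
        exact mem_nearPairs (min_le_right _ _) hnear
      · show w ++ [U e] <:+: (XX τ κ (n + 1) y t).flatMap f
        rw [hw, hκ, ← hXX]
        exact hinf
      · show w ++ [U e'] <:+: (XX τ κ' (n + 1) y' t').flatMap f
        rw [hw', hκ', ← hXX]
        exact hinf'
    · -- two ages
      right; right; right; left
      push Not at hnear
      obtain ⟨hne1, hne2⟩ := hnear
      refine ⟨hwlen, ?_⟩
      by_cases hlt : κ' ≤ κ + C₁
      · -- the first window has the larger level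
        have h1 := hne1 hlt
        have hkk : k' + 1 + C₁ ≤ k := by omega
        have hbig : C₁ * (n + 2) ≤ k ^ 2 := by
          have h2 : C₁ * (n + 2) ≤ κ ^ 2 := by
            by_contra hcon
            push Not at hcon
            have h3 := hne2 hcon
            have h4 : κ' ^ 2 ≤ κ ^ 2 := Nat.pow_le_pow_left (by omega) 2
            omega
          exact h2.trans (Nat.pow_le_pow_left (min_le_left _ _) 2)
        obtain ⟨q, α, s, p, hq, hs, hp, hα1, hα2⟩ := far_case hN h h₀ hl hr hc0 hg0 hc00 hTA hU' hU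
          hNn' hL' hL hkk hbig (by rw [hZ0] at hz1; push_cast at hz1; linarith) hxx.symm hx1' hx4'
          hx1 hx2 hx3 hx4
        refine ⟨q, α, r, s, p, by rw [hw]; exact hq, ?_, ?_, ?_, ?_⟩
        · exact hs.trans (le_max_left _ _)
        · exact hp.trans (le_max_left _ _)
        · have : (C₁ : ℤ) ≤ (max Kf C₁ : ℕ) := by exact_mod_cast le_max_right _ _
          omega
        · have : (C₁ : ℤ) ≤ (max Kf C₁ : ℕ) := by exact_mod_cast le_max_right _ _
          omega
      · have hkk : k + 1 + C₁ ≤ k' := by omega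
        have hbig : C₁ * (n + 2) ≤ k' ^ 2 := by
          have h2 : C₁ * (n + 2) ≤ κ' ^ 2 := by
            by_contra hcon
            push Not at hcon
            have h4 : κ ^ 2 ≤ κ' ^ 2 := Nat.pow_le_pow_left (by omega) 2
            have h3 := hne2 (by omega)
            omega
          exact h2.trans (Nat.pow_le_pow_left (min_le_left _ _) 2)
        obtain ⟨q, α, s, p, hq, hs, hp, hα1, hα2⟩ := far_case hN h h₀ hl hr hc0 hg0 hc00 hTA hU hU'
          hNn hL hL' hkk hbig (by rw [hZ0] at hz2; push_cast at hz2; linarith) hxx hx1 hx4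
          hx1' hx2' hx3' hx4'
        refine ⟨q, α, r, s, p, by rw [hw']; exact hq, ?_, ?_, ?_, ?_⟩
        · exact hs.trans (le_max_left _ _)
        · exact hp.trans (le_max_left _ _)
        · have : (C₁ : ℤ) ≤ (max Kf C₁ : ℕ) := by exact_mod_cast le_max_right _ _
          omega
        · have : (C₁ : ℤ) ≤ (max Kf C₁ : ℕ) := by exact_mod_cast le_max_right _ _
          omega
  -- finiteness of the union
  have hfin : (S1 ∪ (S2 ∪ (S3 ∪ (S4 ∪ S5)))).Finite := by
    refine hfinlen.subset ?_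
    rintro w (hw | hw | hw | hw | hw)
    · exact hw.1
    · have : w = List.replicate n b := hw
      show w.length = n
      rw [this]; simp
    · obtain ⟨z, -, rfl⟩ := hw
      show (win U z n).length = n
      simp
    · exact hw.1
    · simp only [S5, Set.mem_iUnion] at hw
      obtain ⟨d, -, hw⟩ := hw
      exact hw.1
  have htot : rs U n ≤ C0 + (1 + (Z0 + 1 + (C3 * (n + 1)
      + (10 * C₁ + 5) * (n + 1) * (D * D) * CU))) := by
    refine (Set.ncard_le_ncard hcov hfin).trans ?_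
    refine (Set.ncard_union_le _ _).trans (add_le_add h1c ?_)
    refine (Set.ncard_union_le _ _).trans (add_le_add h2c ?_)
    refine (Set.ncard_union_le _ _).trans (add_le_add h3c ?_)
    exact (Set.ncard_union_le _ _).trans (add_le_add h4c h5c)
  refine htot.trans ?_
  have e1 : ((Fintype.card A + 1) ^ tl f + C0 + 1 + (Z0 + 1) + C3
    + (10 * C₁ + 5) * (D * D) * CU) * (n + 1) = (Fintype.card A + 1) ^ tl f * (n + 1)
      + C0 * (n + 1) + (n + 1) + (Z0 + 1) * (n + 1) + C3 * (n + 1)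
      + (10 * C₁ + 5) * (n + 1) * (D * D) * CU := by ring
  rw [e1]
  have e2 : C0 ≤ C0 * (n + 1) := Nat.le_mul_of_pos_right _ (by omega)
  have e3 : Z0 + 1 ≤ (Z0 + 1) * (n + 1) := Nat.le_mul_of_pos_right _ (by omega)
  have e4 : 0 ≤ (Fintype.card A + 1) ^ tl f * (n + 1) := Nat.zero_le _
  omega

end Pool.Agent.H19.MW
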