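import Pool.Agent.H19.MW.PushyLin
import Pool.Agent.H83.MW.TwoAges

/-! # MP_1fe246_co: the pushy case modulo GAPWORD and MWORD -/

set_option autoImplicit false

namespace Pool.Agent.H19.MW

open Pool.Agent.H68.MW Pool.Agent.H83.MW Pool.Agent.H88.MW

theorem pushyLin_of
    (hG : ∀ {B : Type} [Fintype B] {τ : B → List B} {v : ℤ → B} {c : ℤ → ℤ},
      Nrm τ → Img τ v v c → GapWord τ v c)
    (hM : ∀ {B : Type} [Fintype B] {τ : B → List B} {v : ℤ → B} {c : ℤ → ℤ},
      Nrm τ → Img τ v v c → MWord τ v c) : PushyLin :=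
  pushyLin fun hN h hl hr => two_ages
    { hN := hN
      h := h
      hR := hr
      hL := hl
      hG := hG hN h
      hM := hM hN h
      hG' := hG (nrm_mirror hN) h.mirror
      hM' := hM (nrm_mirror hN) h.mirror }

end Pool.Agent.H19.MW
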