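import Pool.Agent.H19.MW.PushUp3
import Pool.Agent.H88.MW.Nrm
import Pool.Agent.H88.MW.Final

/-! # MP_1fe246_co, module PU7, part 4: the pushy case of the theorem, modulo TWO AGES -/

set_option autoImplicit false
set_option linter.unusedSectionVars false

namespace Pool.Agent.H19.MW

open Pool.Agent.H68.MW Pool.Agent.H83.MW Pool.Agent.H88.MW Pool.Agent.H40.MW

/-- in an aperiodic word, growing letters occur arbitrarily far to the right -/
theorem right_growing {α B : Type} [Fintype B] {τ : B → List B} {f : B → List (Option α)}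
    {v : ℤ → B} {c c₀ : ℤ → ℤ} (u : ℕ → α)
    (hap : ¬ ∃ N p : ℕ, 0 < p ∧ ∀ n, N ≤ n → u (n + p) = u n)
    (hN : Nrm τ) (h : Img τ v v c) (h₀ : Img f v (twoSided u) c₀) (hc0 : c 0 = 0)
    (hg0 : Gr τ (v 0)) (x : ℤ) : ∃ y, x < y ∧ Gr τ (v y) := by
  classical
  by_contra hcon
  push Not at hcon
  -- the last growing position
  have hex : ∃ k : ℕ, Gr τ (v (max x 0 - k)) := ⟨(max x 0).toNat, by
    have e : max x 0 - ((max x 0).toNat : ℤ) = 0 := by omega
    rw [e]; exact hg0⟩
  obtain ⟨k, hk, hkmin⟩ : ∃ k : ℕ, Gr τ (v (max x 0 - k)) ∧ ∀ k' < k, ¬ Gr τ (v (max x 0 - k')) :=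
    ⟨Nat.find hex, Nat.find_spec hex, fun k' hk' => Nat.find_min hex hk'⟩
  set p : ℤ := max x 0 - k with hp
  have hmax : ∀ y, p < y → ¬ Gr τ (v y) := by
    intro y hy
    by_cases hyx : y ≤ max x 0
    · have := hkmin (max x 0 - y).toNat (by omega)
      have e : max x 0 - ((max x 0 - y).toNat : ℤ) = y := by omega
      rwa [e] at this
    · exact hcon y (by omega)
  have hp0 : 0 ≤ p := by
    by_contra hneg
    exact hmax 0 (by omega) hg0
  have h1 := h.add_le 0 p.toNat
  rw [zero_add, hc0, zero_add] at h1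
  have e1 : ((p.toNat : ℕ) : ℤ) = p := by omega
  rw [e1] at h1
  have h2 := c_lt_RR hN h hk
  have h3 : RR τ v c p ≤ p := by
    by_contra hlt
    have hRg : Gr τ (v (RR τ v c p)) := by
      rw [v_RR hN h hk]
      exact gr_rf hN hk
    exact hmax _ (not_le.1 hlt) hRg
  have h4 := h.step p
  have h5 := (hN.dich _ hk).1
  -- eventually periodic above
  set d : ℕ := (c (p + 1) - (p + 1)).toNat with hd
  have hd1 : 0 < d := by omega
  have hd2 : c (p + 1) = p + 1 + d := by omega
  have hper : ∀ t : ℕ, v (p + 1 + d + t) = v (p + 1 + t) := by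
    intro t
    have := (cut_run h (i := p + 1) (n := t + 1) (fun s _ => hmax _ (by omega))).2 t (by omega)
    rw [hd2] at this
    exact this
  -- eventually periodic below
  have hP : ∀ y : ℤ, p + 1 ≤ y → Per v d (p + 1) y := by
    intro y _ i hi _
    have := hper (i - (p + 1)).toNat
    have e2 : p + 1 + (d : ℤ) + ((i - (p + 1)).toNat : ℤ) = i + d := by omega
    have e3 : p + 1 + ((i - (p + 1)).toNat : ℤ) = i := by omega
    rw [e2, e3] at this
    exact this.symm
  apply hap
  have hmono := h₀.add_le (p + 1) d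
  refine ⟨(c₀ (p + 1)).toNat, (c₀ (p + 1 + d) - c₀ (p + 1)).toNat, by omega, fun n hn => ?_⟩
  set Q := (c₀ (p + 1 + d) - c₀ (p + 1)).toNat with hQ
  have hval : ∀ m : ℕ, twoSided u (m : ℤ) = some (u m) := by
    intro m
    simp [twoSided]
  obtain ⟨q', hq', hqper'⟩ := h₀.per_image (hP (p + 1 + d + (n + Q + 1 + (-c₀ (p + 1)).toNat : ℕ))
    (by omega)) (by omega)
  have hqq : q' = Q := by omega
  rw [hqq] at hqper'
  have h9 := h₀.add_le (p + 1 + d) (n + Q + 1 + (-c₀ (p + 1)).toNat)
  have := hqper' n (by omega) (by push_cast at h9 ⊢; omega)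
  have e4 : ((n : ℤ) + (Q : ℤ)) = ((n + Q : ℕ) : ℤ) := by push_cast; ring
  rw [e4, hval, hval] at this
  exact (Option.some.inj this).symm

/-- right special windows reaching to the left of the origin consist of `none` only -/
theorem none_window {α : Type} (u : ℕ → α) (n : ℕ) (e e' : ℤ)
    (hw : win (twoSided u) (e - n) n = win (twoSided u) (e' - n) n)
    (hne : twoSided u e ≠ twoSided u e') (hneg : e - n < 0) :
    win (twoSided u) (e - n) n = List.replicate n none := by
  have hU : ∀ x : ℤ, twoSided u x = none ↔ x < 0 := by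
    intro x
    unfold twoSided
    split_ifs with hx
    · simp; omega
    · simp; omega
  have hw' := (win_eq_iff _ _ _ _ _).1 hw
  have key : ∀ i : ℕ, i < n → (e - n + i < 0 ↔ e' - n + i < 0) := by
    intro i hi
    rw [← hU, ← hU, hw' i hi]
  have he : e ≤ 0 := by
    by_contra hpos
    push Not at hpos
    -- first position without `none`
    have h1 := key (n - e).toNat (by omega)
    have h2 := key (n - e - 1).toNat (by omega)
    have e1 : (((n : ℤ) - e).toNat : ℤ) = n - e := by omega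
    have e2 : (((n : ℤ) - e - 1).toNat : ℤ) = n - e - 1 := by omega
    rw [e1] at h1
    rw [e2] at h2
    have : e = e' := by
      have h3 : ¬ (e - (n : ℤ) + (n - e) < 0) := by omega
      have h4 : (e - (n : ℤ) + (n - e - 1) < 0) := by omega
      have h5 : ¬ (e' - (n : ℤ) + (n - e) < 0) := fun h => h3 (h1.2 h)
      have h6 := h2.1 h4
      omega
    exact hne (by rw [this])
  apply List.ext_getElem
  · simp
  · intro i h1 h2
    rw [getElem_win, List.getElem_replicate, hU]
    simp only [length_win] at h1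
    omega

/-- **The pushy case**, modulo TWO AGES. -/
theorem pushyLin (hTA : ∀ {B : Type} [Fintype B] {τ : B → List B} {v : ℤ → B} {c : ℤ → ℤ},
    Nrm τ → Img τ v v c → (∀ x : ℤ, ∃ y, y < x ∧ Gr τ (v y)) → (∀ x : ℤ, ∃ y, x < y ∧ Gr τ (v y)) →
    TwoAges τ v c) : PushyLin := by
  classical
  intro α _ u hap B _ τ f v c c₀ z hirr hf _ h h₀ hc0 hc00 _ hz hτz _ hv0 hnp
  obtain ⟨q, hq, hN, hfix⟩ := exists_nrm hirr
  have h' := h.power q
  have hc0' : (c^[q]) 0 = 0 := Img.power_zero_fixed hc0 q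
  have hg0 : Gr (itr τ q) (v 0) := by
    intro hcon
    obtain ⟨M, hM⟩ := (hfix _).1 hcon
    obtain ⟨j, hj⟩ := hv0 M
    exact absurd (hM j) (by omega)
  have hgz : Gr (itr τ q) z := by
    intro hcon
    obtain ⟨q', rfl⟩ := Nat.exists_eq_add_of_le' hq
    rw [itr_succ', hτz] at hcon
    have h1 := congrArg List.length hcon
    have h2 : 0 < (itr τ q' z).length := List.length_pos_iff.2 (itr_ne h.ne q' z)
    simp only [List.flatMap_cons, List.flatMap_nil, List.length_append, List.length_nil,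
      List.length_cons] at h1
    omega
  have hneg : ∀ x : ℤ, x < 0 → Gr (itr τ q) (v x) := by
    intro x hx
    rw [(hz x).2 hx]
    exact hgz
  have hl : ∀ x : ℤ, ∃ y, y < x ∧ Gr (itr τ q) (v y) := fun x =>
    ⟨min (x - 1) (-1), by omega, hneg _ (by omega)⟩
  have hr : ∀ x : ℤ, ∃ y, x < y ∧ Gr (itr τ q) (v y) :=
    right_growing u hap hN h' h₀ hc0' hg0
  have hpush : ∀ L : ℕ, ∃ x : ℤ, ∀ t : ℕ, t < L → ¬ Gr (itr τ q) (v (x + t)) := by
    intro L
    unfold NonPushy at hnp
    push Not at hnp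
    obtain ⟨x, hx⟩ := hnp L
    refine ⟨x, fun t ht hcon => hcon ((hfix _).2 (hx t ht))⟩
  obtain ⟨K, hK⟩ := push_lower hN h' hf h₀ hc0' hneg hr hpush
  obtain ⟨C, hC⟩ := push_upper hN h' hf h₀ hl hr hc0' hg0 hc00 (hTA hN h' hl hr)
    ⟨none, fun n e e' h1 h2 h3 => none_window u n e e' h1 h2 h3⟩
  have hKpos : 0 < K := by
    rcases Nat.eq_zero_or_pos K with h0 | h0
    · have := hK 1
      rw [h0] at this
      omega
    · exact h0
  refine ⟨1 / (2 * K), 2 * C, by positivity, ?_⟩
  filter_upwards [Filter.eventually_ge_atTop (2 * K)] with n hn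
  have h1 := hK n
  have h2 := hC n
  constructor
  · rw [div_mul_eq_mul_div, one_mul, div_le_iff₀ (by positivity)]
    have h3 : (n : ℝ) ≤ K * (rs (twoSided u) n + 1) := by exact_mod_cast h1
    have h4 : (2 * K : ℝ) ≤ n := by exact_mod_cast hn
    nlinarith
  · have h3 : (rs (twoSided u) n : ℝ) ≤ C * (n + 1) := by exact_mod_cast h2
    have h4 : (1 : ℝ) ≤ n := by
      have : 1 ≤ n := by omega
      exact_mod_cast this
    have h5 : (0 : ℝ) ≤ C := by positivity
    nlinarith

end Pool.Agent.H19.MW
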